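import Mathlib
import Pool.Agent.E8helper1.NU.Defs

/-!
# The Mumford-Tate conjecture for abelian schemes of any type: definitions
-/

set_option autoImplicit false

namespace Pool.Agent.E8helper1.MTA

open TensorProduct Pool.Agent.H204R3.CM Pool.Agent.H204R3.GP Pool.Agent.E8helper1.NU

variable {B W T : Type} [AddCommGroup W] [Module ℚ W] [AddCommGroup T] [Module ℂ T]

/-- The family has no indefinite unitary part: if the parallel transports are complex linear on the
image of an element `e = ∑ a i • Q i` of `End(A / B) ⊗ ℝ`, then `i e` is an element of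
`End(A / B) ⊗ ℝ`, too. -/
def NoIndefiniteUnitaryPart (per : B → W →+ T) : Prop :=
  ∀ (m : ℕ) (a : Fin m → ℝ) (Q : Fin m → W →ₗ[ℚ] W), (∀ i, IsFlatEnd per (Q i)) →
    (∀ s t θ, IsTransport per s t θ → ∀ w,
      θ (Complex.I • ∑ i, a i • per s (Q i w)) = Complex.I • ∑ i, a i • per t (Q i w)) →
    ∃ (m' : ℕ) (a' : Fin m' → ℝ) (Q' : Fin m' → W →ₗ[ℚ] W), (∀ i, IsFlatEnd per (Q' i)) ∧
      ∀ b w, Complex.I • ∑ i, a i • per b (Q i w) = ∑ i, a' i • per b (Q' i w)

section ladic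

variable {K : Type} [Field K] [CharZero K] {Γ : Type} [Group Γ]

/-- The endomorphisms of the abelian scheme with coefficients in `K`, acting on the Tate module. -/
def flatEndos (K : Type) [Field K] [CharZero K] (per : B → W →+ T) :
    Submodule K (Module.End K (K ⊗[ℚ] W)) :=
  Submodule.span K {X | ∃ Q : W →ₗ[ℚ] W, IsFlatEnd per Q ∧ X = Q.baseChange K}

/-- The endomorphism `X` of the Tate module annihilates the class `F` on `A ^ n` (it acts as a
derivation). -/
def Annihilates {n k : ℕ} (X : Module.End K (K ⊗[ℚ] W))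
    (F : (Fin n → K ⊗[ℚ] W) [⋀^Fin k]→ₗ[K] K) : Prop :=
  ∀ v : Fin k → Fin n → K ⊗[ℚ] W, ∑ l, F (Function.update v l fun j => X (v l j)) = 0

/-- The class `F` on `A ^ n` is a Tate class in `H ^ (2 m) (A ^ n) (m)`. -/
def IsTate (ρ : Representation K Γ (K ⊗[ℚ] W)) (χ : Γ →* K) {n m : ℕ}
    (F : (Fin n → K ⊗[ℚ] W) [⋀^Fin (2 * m)]→ₗ[K] K) : Prop :=
  IsTateOnProduct ρ χ (Representation.trivial K Γ K) m F

/-- The theorem on centres (Vasiu, Ullmo-Yafaev), in terms of Lie algebras: an element of the centre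
of `End(A / B) ⊗ K` which annihilates all Hodge classes on the powers of `A` annihilates all Tate
classes on the powers of `A`. -/
def TheoremOnCentres (per : B → W →+ T) (ρ : Representation K Γ (K ⊗[ℚ] W)) (χ : Γ →* K) :
    Prop :=
  ∀ X ∈ flatEndos K per, (∀ Y ∈ flatEndos K per, X * Y = Y * X) →
    (∀ (n r : ℕ) (f : (Fin n → W) [⋀^Fin (2 * r)]→ₗ[ℚ] ℚ)
      (f' : (Fin n → K ⊗[ℚ] W) [⋀^Fin (2 * r)]→ₗ[K] K), IsFlatHodge per f → Compares f f' →
      Annihilates X f') →
    ∀ (n m : ℕ) (F : (Fin n → K ⊗[ℚ] W) [⋀^Fin (2 * m)]→ₗ[K] K), IsTate ρ χ F → Annihilates X F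

/-- The span of the Hodge classes on `A ^ n` of degree `2 m`. -/
def hodgeSpan (K : Type) [Field K] [CharZero K] (per : B → W →+ T) (n m : ℕ) :
    Submodule K ((Fin n → K ⊗[ℚ] W) [⋀^Fin (2 * m)]→ₗ[K] K) :=
  Submodule.span K {f' | ∃ f : (Fin n → W) [⋀^Fin (2 * m)]→ₗ[ℚ] ℚ, IsFlatHodge per f ∧
    Compares f f'}

end ladic

end Pool.Agent.E8helper1.MTA
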