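import Mathlib
import Pool.Agent.E8helper1.NU.Main2

/-!
# Families without indefinite unitary part
-/

set_option autoImplicit false
set_option linter.unusedSectionVars false

namespace Pool.Agent.E8helper1.MTA

open Matrix Pool.Agent.E8helper1.NU Pool.Agent.E8helper1.NU.Fam

variable {β : Type*} [Fintype β] [DecidableEq β] {B : Type*} {D : Fam β B}

/-- There is no indefinite unitary part. -/
def NoIndef (D : Fam β B) : Prop :=
  ∀ e ∈ cx D.E, (∀ s t, D.J s * e = D.J t * e) → ∀ s, D.J s * e ∈ cx D.E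

variable {U : Type*} [AddCommGroup U] [Module ℚ U] {r : Matrix β β ℚ →ₗ[ℚ] Module.End ℚ U}
  {F : Submodule ℚ U}

theorem cx_bot : cx (⊥ : Submodule ℚ (Matrix β β ℚ)) ≤ ⊥ := by
  refine Submodule.span_le.2 ?_
  rintro _ ⟨A, hA, rfl⟩
  rw [SetLike.mem_coe, Submodule.mem_bot] at hA
  rw [hA, SetLike.mem_coe, Submodule.mem_bot]
  ext i j
  simp [rc]

theorem G_E_comm {X Y : Matrix β β ℝ} (hX : X ∈ cx (D.G r F)) (hY : Y ∈ cx D.E) :
    X * Y = Y * X := by
  have h := bracket_mem (U := ⊥) (fun (X : Matrix β β ℚ) (hX : X ∈ D.G r F) Y hY => by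
    rw [hX.2.1 Y hY, sub_self]
    exact Submodule.zero_mem _) hX hY
  rw [← sub_eq_zero]
  exact (Submodule.mem_bot ℝ).1 (cx_bot h)

variable (hr : ∀ X Y, r (X * Y - Y * X) = r Y * r X - r X * r Y)
  (hF : ∀ b (lam : ℝ →ₗ[ℚ] ℚ), ∀ f ∈ F, r ((D.J b).map lam) f ∈ F)
  (hc : ∀ b b' (lam : ℝ →ₗ[ℚ] ℚ), ∀ f ∈ F, r ((D.J b).map lam) f = r ((D.J b').map lam) f)

include hr hF hc

/-- Without indefinite unitary part the complementary ideal consists of endomorphisms. -/
theorem C_le_E (hni : NoIndef D) : D.C r F ≤ D.E := by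
  intro Y hY b
  set X := odd D b (rc Y) with hX
  have hXC : X ∈ cx (D.C r F) := odd_mem_C hr hF b (rc_mem hY)
  have hXG : X ∈ cx (D.G r F) := cx_mono C_le hXC
  have hanti : D.J b * X = -(X * D.J b) := odd_anti b _
  set e := eN r F D b with he
  have he1 : ∀ s, D.J s * e = D.J b * e := by
    intro s
    apply Matrix.ext_of_mulVec_single
    intro j
    rw [← mulVec_mulVec, ← mulVec_mulVec, he, eN_mulVec]
    exact J_eq_on_N hr hF hc s b (prj_mem b _)
  have he2 : D.J b * e ∈ cx D.E :=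
    hni e (eN_mem hr hF b) (fun s t => by rw [he1 s, he1 t]) b
  have he3 : e * X = X := by
    apply Matrix.ext_of_mulVec_single
    intro j
    rw [← mulVec_mulVec, he, eN_mulVec, prj_of_mem b (odd_C_image hr hF b hXC hanti _)]
  have he4 : X * e = X := by rw [he, eN_comm hr hF b hXG, ← he, he3]
  have he5 : D.J b * e = e * D.J b := eN_comm hr hF b (J_mem hF b)
  have h1 : D.J b * X = X * D.J b := by
    calc D.J b * X = (D.J b * e) * X := by rw [mul_assoc, he3]
      _ = X * (D.J b * e) := (G_E_comm hXG he2).symm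
      _ = (X * e) * D.J b := by rw [he5, mul_assoc]
      _ = X * D.J b := by rw [he4]
  rw [h1] at hanti
  have h2 : X * D.J b = 0 := by
    have h3 : (2 : ℝ) • (X * D.J b) = 0 := by
      rw [two_smul]
      nth_rewrite 1 [hanti]
      rw [neg_add_cancel]
    have := congrArg (fun M => (2 : ℝ)⁻¹ • M) h3
    simpa only [smul_smul, inv_mul_cancel₀ (two_ne_zero (α := ℝ)), one_smul, smul_zero] using this
  have h3 : X = 0 := by
    have h4 : X * D.J b * D.J b = -X := by rw [mul_assoc, D.J_sq b, mul_neg_one]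
    rw [h2, zero_mul] at h4
    exact neg_eq_zero.1 h4.symm
  have h5 := sub_odd_comm (D := D) b (rc Y)
  rw [← hX, h3, sub_zero] at h5
  exact h5

/-- The decomposition of the complex structure. -/
theorem J_decomp (hni : NoIndef D) (b : B) :
    ∃ k c : Matrix β β ℝ, D.J b = k + c ∧ (∀ lam : ℝ →ₗ[ℚ] ℚ, ∀ f ∈ F, r (k.map lam) f = 0) ∧
      ∀ lam : ℝ →ₗ[ℚ] ℚ, c.map lam ∈ D.E ∧ ∀ Q ∈ D.E, c.map lam * Q = Q * c.map lam := by
  obtain ⟨k, hk, c, hcm, hkc⟩ := cx_decomp hr hF b (J_mem hF b)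
  refine ⟨k, c, hkc, fun lam f hf => (mem_cx_iff.1 hk lam).2 f hf, fun lam => ?_⟩
  have h1 := mem_cx_iff.1 hcm lam
  exact ⟨C_le_E hr hF hc hni h1, fun Q hQ => h1.1.2.1 Q hQ⟩

end Pool.Agent.E8helper1.MTA
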