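import Mathlib
import Pool.Agent.E8helper1.MTA.Struct
import Pool.Agent.E8helper1.MTA.Defs

/-!
# The Mumford-Tate conjecture for abelian schemes of any type: proof
-/

set_option autoImplicit false
set_option linter.unusedSectionVars false

namespace Pool.Agent.E8helper1.MTA

open Matrix Module TensorProduct Pool.Agent.H204R3.CM Pool.Agent.H204R3.GP Pool.Agent.W437.HC
  Pool.Agent.W516.MTD Pool.Agent.E8helper1.NU Pool.Agent.E8helper1.NU.Fam

section transfer

variable {B W T : Type} [AddCommGroup W] [Module ℚ W] [AddCommGroup T] [Module ℂ T]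
variable {N : ℕ} {per : B → W →+ T} {ω₀ : W →ₗ[ℚ] W →ₗ[ℚ] ℚ}
    {b0 : Basis (Fin N) ℚ W} {bT : B → Basis (Fin N) ℝ T}
    {hb : ∀ b i, bT b i = per b (b0 i)} {hω : ∀ b, IsRiemannForm (per b) ω₀}
    {hne : Nonempty B}

/-- The real combination of endomorphisms in coordinates. -/
theorem combo_coord {m : ℕ} (hb : ∀ b i, bT b i = per b (b0 i)) (a : Fin m → ℝ)
    (A : Fin m → Matrix (Fin N) (Fin N) ℚ) (b : B) (x : Fin N → ℚ) :
    ∑ i, a i • per b (Matrix.toLin b0 b0 (A i) (∑ j, x j • b0 j)) =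
      ∑ j, ((∑ i, a i • rc (A i)) *ᵥ fun j => (x j : ℝ)) j • bT b j := by
  have h1 : ∀ i, per b (Matrix.toLin b0 b0 (A i) (∑ j, x j • b0 j)) =
      ∑ j, (rc (A i) *ᵥ fun j => (x j : ℝ)) j • bT b j := by
    intro i
    rw [per_sum (per b) b0]
    refine Finset.sum_congr rfl fun k _ => ?_
    rw [hb b k]
    congr 1
    rw [Matrix.repr_toLin, Basis.repr_sum_self]
    simp only [mulVec, dotProduct, rc_apply]
    push_cast
    rfl
  simp only [h1, Finset.smul_sum, smul_smul]
  rw [Finset.sum_comm]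
  refine Finset.sum_congr rfl fun k _ => ?_
  rw [← Finset.sum_smul]
  congr 1
  rw [Matrix.sum_mulVec]
  simp only [Finset.sum_apply]
  refine Finset.sum_congr rfl fun i _ => ?_
  rw [smul_mulVec, Pi.smul_apply, smul_eq_mul]

theorem noIndef_of (hni : NoIndefiniteUnitaryPart per) :
    NoIndef (fam per ω₀ b0 bT hb hω hne) := by
  intro e he hst s
  obtain ⟨m, a, g, hg⟩ := Submodule.mem_span_set'.1 he
  choose A hA hA2 using fun i => (g i).2
  have hsum : ∑ i, a i • rc (A i) = e := by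
    rw [← hg]
    exact Finset.sum_congr rfl fun i _ => by rw [hA2 i]
  obtain ⟨m', a', Q', hQ', h1⟩ := hni m a (fun i => Matrix.toLin b0 b0 (A i))
    (fun i => (mem_E_iff _).1 (hA i)) (by
      intro s t θ hθ w
      have hw : w = ∑ j, (b0.repr w j) • b0 j := (b0.sum_repr w).symm
      rw [hw, combo_coord hb, combo_coord hb, I_smul_sum, I_smul_sum, map_sum]
      have h4 : ∀ j, θ (bT s j) = bT t j := by
        intro j
        rw [hb, hb]
        exact hθ _
      simp only [map_smul, h4, mulVec_mulVec]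
      rw [hsum]
      have h5 : JM (bT s) * e = JM (bT t) * e := hst s t
      rw [h5])
  have h2 : JM (bT s) * e = ∑ i, a' i • rc (LinearMap.toMatrix b0 b0 (Q' i)) := by
    apply Matrix.ext_of_mulVec_single
    intro j
    refine sum_inj (bT s) ?_
    have h3 := h1 s (∑ k, (Pi.single j 1 : Fin N → ℚ) k • b0 k)
    rw [combo_coord hb, hsum, I_smul_sum, mulVec_mulVec] at h3
    have h4 : ∀ i, Q' i = Matrix.toLin b0 b0 (LinearMap.toMatrix b0 b0 (Q' i)) := fun i =>
      (Matrix.toLin_toMatrix b0 b0 (Q' i)).symm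
    have h5 : ∑ i, a' i • per s (Q' i (∑ k, (Pi.single j 1 : Fin N → ℚ) k • b0 k)) =
        ∑ i, a' i • per s (Matrix.toLin b0 b0 (LinearMap.toMatrix b0 b0 (Q' i))
          (∑ k, (Pi.single j 1 : Fin N → ℚ) k • b0 k)) := by
      refine Finset.sum_congr rfl fun i _ => ?_
      rw [← h4 i]
    rw [h5, combo_coord hb] at h3
    have h6 : (fun k => ((Pi.single j 1 : Fin N → ℚ) k : ℝ)) = Pi.single j 1 := by
      funext k
      by_cases hk : k = j
      · subst hk
        simp
      · simp [Pi.single_eq_of_ne hk]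
    rw [h6] at h3
    exact h3
  change JM (bT s) * e ∈ _
  rw [h2]
  refine Submodule.sum_mem _ fun i _ => Submodule.smul_mem _ _ (rc_mem ?_)
  rw [mem_E_iff, Matrix.toLin_toMatrix]
  exact hQ' i

end transfer

/-- The representation on the coefficients of all forms on all powers. -/
noncomputable def repAll (N : ℕ) : Matrix (Fin N) (Fin N) ℚ →ₗ[ℚ]
    Module.End ℚ (∀ p : ℕ × ℕ, (Fin p.2 → Fin p.1 × Fin N) → ℚ) where
  toFun X :=
    { toFun := fun u p => rep (Fin N) p.1 (Fin p.2) X (u p)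
      map_add' := fun u v => by
        funext p
        exact map_add _ _ _
      map_smul' := fun a u => by
        funext p
        exact (rep (Fin N) p.1 (Fin p.2) X).map_smul a (u p) }
  map_add' X Y := by
    refine LinearMap.ext fun u => ?_
    funext p
    change rep (Fin N) p.1 (Fin p.2) (X + Y) (u p) = _
    rw [map_add]
    rfl
  map_smul' a X := by
    refine LinearMap.ext fun u => ?_
    funext p
    change rep (Fin N) p.1 (Fin p.2) (a • X) (u p) = _
    rw [map_smul]
    rfl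

theorem repAll_apply {N : ℕ} (X : Matrix (Fin N) (Fin N) ℚ)
    (u : ∀ p : ℕ × ℕ, (Fin p.2 → Fin p.1 × Fin N) → ℚ) (p : ℕ × ℕ) :
    repAll N X u p = act (bd p.1 X) (u p) := rfl

theorem repAll_bracket {N : ℕ} (X Y : Matrix (Fin N) (Fin N) ℚ) :
    repAll N (X * Y - Y * X) = repAll N Y * repAll N X - repAll N X * repAll N Y := by
  refine LinearMap.ext fun u => ?_
  funext p
  have h := LinearMap.congr_fun (rep_bracket (n := p.1) (κ := Fin p.2) X Y) (u p)
  exact h

section hodge

variable {W T : Type} [AddCommGroup W] [Module ℚ W] [AddCommGroup T] [Module ℂ T] {N n k : ℕ}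
  {bT : Basis (Fin N) ℝ T} {per : W →+ T} {b0 : Basis (Fin N) ℚ W}
  (hb : ∀ i, bT i = per (b0 i))

include hb

/-- A Hodge class is killed by the complex structure. -/
theorem kill_of_isHodge {f : (Fin n → W) [⋀^Fin k]→ₗ[ℚ] ℚ} (h : IsHodge (pow per n) f) :
    act (bd n (JM bT)) (cst ℝ (coef b0 f)) = 0 := by
  obtain ⟨ψ, h1, h2⟩ := h
  have hc : (fun I : Fin k → Fin n × Fin N => ψ fun l => basT bT n (I l)) =
      cst ℝ (coef b0 f) := by
    funext I
    rw [cst_apply]
    unfold coef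
    rw [← h1]
    simp only [pow_bas hb]
  have he : ∀ x : Fin k → Fin n × Fin N → ℝ, ψ (fun l => ∑ p, x l p • basT bT n p) =
      evalF (cst ℝ (coef b0 f)) x := by
    intro x
    have := eval_eq ψ (basT bT n) x
    rw [hc] at this
    exact this
  apply act_of_rotate
  intro θ x
  rw [← he, ← he]
  refine Eq.trans ?_ (h2 (Complex.cos θ + Complex.sin θ * Complex.I) (by
    rw [← Complex.exp_mul_I, Complex.norm_exp_ofReal_mul_I]) _)
  congr 1
  funext l
  rw [add_smul, mul_smul, I_smul_basT]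
  simp only [Pi.add_apply, Pi.smul_apply, smul_eq_mul, add_smul, Finset.sum_add_distrib,
    Finset.smul_sum, mul_smul]
  rw [← Complex.ofReal_cos, ← Complex.ofReal_sin]
  rfl

end hodge

section family

theorem isHodge_zero {W T : Type} [AddCommGroup W] [Module ℚ W] [AddCommGroup T] [Module ℂ T]
    {per : W →+ T} {κ : Type} : IsHodge per (0 : W [⋀^κ]→ₗ[ℚ] ℚ) :=
  ⟨0, fun v => by simp, fun z hz u => rfl⟩

theorem isHodge_add {W T : Type} [AddCommGroup W] [Module ℚ W] [AddCommGroup T] [Module ℂ T]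
    {per : W →+ T} {κ : Type} {f f' : W [⋀^κ]→ₗ[ℚ] ℚ} (h : IsHodge per f) (h' : IsHodge per f') :
    IsHodge per (f + f') := by
  obtain ⟨ψ, h1, h2⟩ := h
  obtain ⟨ψ', h1', h2'⟩ := h'
  refine ⟨ψ + ψ', fun v => ?_, fun z hz u => ?_⟩
  · rw [_root_.add_apply, h1, h1', AlternatingMap.add_apply, Rat.cast_add]
  · rw [_root_.add_apply, _root_.add_apply, h2 z hz, h2' z hz]

theorem isHodge_smul {W T : Type} [AddCommGroup W] [Module ℚ W] [AddCommGroup T] [Module ℂ T]
    {per : W →+ T} {κ : Type} (a : ℚ) {f : W [⋀^κ]→ₗ[ℚ] ℚ} (h : IsHodge per f) :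
    IsHodge per (a • f) := by
  obtain ⟨ψ, h1, h2⟩ := h
  refine ⟨(a : ℝ) • ψ, fun v => ?_, fun z hz u => ?_⟩
  · rw [_root_.smul_apply, h1, AlternatingMap.smul_apply, smul_eq_mul, smul_eq_mul,
      Rat.cast_mul]
  · rw [_root_.smul_apply, _root_.smul_apply, h2 z hz]

variable {B W T P : Type} [AddCommGroup W] [Module ℚ W] [FiniteDimensional ℚ W] [AddCommGroup T]
  [Module ℂ T] [Group P]

/-- The coefficients of the sums of an invariant form and a Hodge class, for all powers and all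
degrees. -/
noncomputable def allF (per : B → W →+ T) (τ : Representation ℚ P W) {N : ℕ}
    (b0 : Basis (Fin N) ℚ W) : Submodule ℚ (∀ p : ℕ × ℕ, (Fin p.2 → Fin p.1 × Fin N) → ℚ) where
  carrier := {u | ∀ p : ℕ × ℕ, ∃ f g : (Fin p.1 → W) [⋀^Fin p.2]→ₗ[ℚ] ℚ,
    (∃ P' : Subgroup P, P'.FiniteIndex ∧ IsInvariant τ P' f) ∧ IsFlatHodge per g ∧
    coef b0 f + coef b0 g = u p}
  zero_mem' := by
    intro p
    exact ⟨0, 0, ⟨⊤, inferInstance, fun _ _ _ => rfl⟩, fun b => isHodge_zero, add_zero _⟩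
  add_mem' := by
    intro u v hu hv p
    obtain ⟨f, g, ⟨P', hP', h1⟩, h2, h3⟩ := hu p
    obtain ⟨f', g', ⟨P'', hP'', h1'⟩, h2', h3'⟩ := hv p
    refine ⟨f + f', g + g', ⟨P' ⊓ P'', inferInstance, fun γ hγ w => ?_⟩,
      fun b => isHodge_add (h2 b) (h2' b), ?_⟩
    · rw [AlternatingMap.add_apply, AlternatingMap.add_apply, h1 γ hγ.1, h1' γ hγ.2]
    · rw [Pi.add_apply, ← h3, ← h3']
      funext I
      change (f + f') _ + (g + g') _ = (f _ + g _) + (f' _ + g' _)
      rw [AlternatingMap.add_apply, AlternatingMap.add_apply]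
      abel
  smul_mem' := by
    intro a u hu p
    obtain ⟨f, g, ⟨P', hP', h1⟩, h2, h3⟩ := hu p
    refine ⟨a • f, a • g, ⟨P', hP', fun γ hγ w => ?_⟩, fun b => isHodge_smul a (h2 b), ?_⟩
    · rw [AlternatingMap.smul_apply, AlternatingMap.smul_apply, h1 γ hγ]
    · rw [Pi.smul_apply, ← h3]
      funext I
      change (a • f) _ + (a • g) _ = a • (f _ + g _)
      rw [AlternatingMap.smul_apply, AlternatingMap.smul_apply, smul_add]

variable {per : B → W →+ T} {ω₀ : W →ₗ[ℚ] W →ₗ[ℚ] ℚ} {N : ℕ}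
    {b0 : Basis (Fin N) ℚ W} {bT : B → Basis (Fin N) ℝ T}
    {hb : ∀ b i, bT b i = per b (b0 i)} {hω : ∀ b, IsRiemannForm (per b) ω₀}
    {hne : Nonempty B} {τ : Representation ℚ P W}

/-- The image of an invariant form. -/
theorem weil_key (hb : ∀ b i, bT b i = per b (b0 i)) (hfix : FixedPart per τ) {P' : Subgroup P}
    (hP' : P'.FiniteIndex) {n k : ℕ} (lam : ℝ →ₗ[ℚ] ℚ) (g : (Fin n → W) [⋀^Fin k]→ₗ[ℚ] ℚ)
    (hg : IsInvariant τ P' g) :
    ∃ g' : (Fin n → W) [⋀^Fin k]→ₗ[ℚ] ℚ, IsInvariant τ P' g' ∧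
      ∀ b, act (bd n ((JM (bT b)).map lam)) (coef b0 g) = coef b0 g' := by
  obtain ⟨G, hG, hGb⟩ := hfix P' hP' n k g hg
  refine ⟨lam.compAlternatingMap G, fun γ hγ w => ?_, fun b => ?_⟩
  · rw [LinearMap.compAlternatingMap_apply, LinearMap.compAlternatingMap_apply, hG γ hγ]
  · funext I
    rw [← bd_map, ← lam_act]
    rw [← weil_coef (hb b) (hGb b) I]
    rfl

/-- A Hodge class is killed by the rational components of the complex structures. -/
theorem hodge_key (hb : ∀ b i, bT b i = per b (b0 i)) {n k : ℕ} (lam : ℝ →ₗ[ℚ] ℚ)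
    {g : (Fin n → W) [⋀^Fin k]→ₗ[ℚ] ℚ} (hg : IsFlatHodge per g) (b : B) :
    act (bd n ((JM (bT b)).map lam)) (coef b0 g) = 0 := by
  funext I
  rw [← bd_map, ← lam_act, kill_of_isHodge (hb b) (hg b)]
  exact map_zero lam

theorem allF_stable (hfix : FixedPart per τ) (b : B) (lam : ℝ →ₗ[ℚ] ℚ)
    (u : ∀ p : ℕ × ℕ, (Fin p.2 → Fin p.1 × Fin N) → ℚ) (hu : u ∈ allF per τ b0) :
    repAll N (((fam per ω₀ b0 bT hb hω hne).J b).map lam) u ∈ allF per τ b0 := by
  intro p
  obtain ⟨f, g, ⟨P', hP', h1⟩, h2, h3⟩ := hu p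
  obtain ⟨f', h4, h5⟩ := weil_key hb hfix hP' lam f h1
  refine ⟨f', 0, ⟨P', hP', h4⟩, fun b => isHodge_zero, ?_⟩
  rw [repAll_apply, ← h3, act_add_right]
  change _ = act (bd p.1 ((JM (bT b)).map lam)) (coef b0 f) +
    act (bd p.1 ((JM (bT b)).map lam)) (coef b0 g)
  rw [h5 b, hodge_key hb lam h2 b]
  rfl

theorem allF_const (hfix : FixedPart per τ) (b b' : B) (lam : ℝ →ₗ[ℚ] ℚ)
    (u : ∀ p : ℕ × ℕ, (Fin p.2 → Fin p.1 × Fin N) → ℚ) (hu : u ∈ allF per τ b0) :
    repAll N (((fam per ω₀ b0 bT hb hω hne).J b).map lam) u =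
      repAll N (((fam per ω₀ b0 bT hb hω hne).J b').map lam) u := by
  funext p
  obtain ⟨f, g, ⟨P', hP', h1⟩, h2, h3⟩ := hu p
  obtain ⟨f', h4, h5⟩ := weil_key hb hfix hP' lam f h1
  rw [repAll_apply, repAll_apply, ← h3, act_add_right, act_add_right]
  change act (bd p.1 ((JM (bT b)).map lam)) (coef b0 f) +
    act (bd p.1 ((JM (bT b)).map lam)) (coef b0 g) =
    act (bd p.1 ((JM (bT b')).map lam)) (coef b0 f) +
    act (bd p.1 ((JM (bT b')).map lam)) (coef b0 g)
  rw [h5 b, h5 b', hodge_key hb lam h2 b, hodge_key hb lam h2 b']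

end family

section ladic

variable {K : Type} [Field K] [CharZero K] {W : Type} [AddCommGroup W] [Module ℚ W]
  [FiniteDimensional ℚ W] {n k : ℕ}

/-- Coordinates of a vector of the Tate module of the power. -/
noncomputable def crd {N : ℕ} (b0 : Basis (Fin N) ℚ W) (u : Fin n → K ⊗[ℚ] W)
    (p : Fin n × Fin N) : K := (b0.baseChange K).repr (u p.1) p.2

theorem compares_eval {N : ℕ} (b0 : Basis (Fin N) ℚ W) {f : (Fin n → W) [⋀^Fin k]→ₗ[ℚ] ℚ}
    {f' : (Fin n → K ⊗[ℚ] W) [⋀^Fin k]→ₗ[K] K} (h : Compares f f')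
    (v : Fin k → Fin n → K ⊗[ℚ] W) :
    f' v = evalF (cst K (coef b0 f)) (fun l => crd b0 (v l)) := by
  have h1 := eval_eq f'.toMultilinearMap
    (fun p : Fin n × Fin N => inc K W n (bas b0 n p)) (fun l => crd b0 (v l))
  have h2 : (fun l => ∑ p, crd b0 (v l) p • inc K W n (bas b0 n p)) = v := by
    funext l j
    rw [Finset.sum_apply, Fintype.sum_prod_type, Finset.sum_eq_single j]
    · have : ∀ i, (crd b0 (v l) (j, i) • inc K W n (bas b0 n (j, i))) j =
          (b0.baseChange K).repr (v l j) i • (b0.baseChange K) i := by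
        intro i
        rw [Pi.smul_apply, inc_apply]
        unfold bas
        rw [Pi.single_eq_same, Basis.baseChange_apply]
        rfl
      simp only [this]
      exact (b0.baseChange K).sum_repr _
    · intro j' _ hj
      refine Finset.sum_eq_zero fun i _ => ?_
      rw [Pi.smul_apply, inc_apply]
      unfold bas
      rw [Pi.single_eq_of_ne (Ne.symm hj), TensorProduct.tmul_zero, smul_zero]
    · intro h
      exact absurd (Finset.mem_univ _) h
  rw [h2] at h1
  change f' v = _ at h1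
  rw [h1]
  congr 1
  funext I
  exact h (fun l => bas b0 n (I l))

/-- The action of a rational endomorphism on coordinates. -/
theorem crd_baseChange {N : ℕ} (b0 : Basis (Fin N) ℚ W) (Y : Matrix (Fin N) (Fin N) ℚ)
    (u : Fin n → K ⊗[ℚ] W) :
    crd b0 (fun j => (Matrix.toLin b0 b0 Y).baseChange K (u j)) =
      (bd n Y).map (fun x : ℚ => (x : K)) *ᵥ crd b0 u := by
  funext p
  have h1 : ∀ x : K ⊗[ℚ] W, ∀ i, (b0.baseChange K).repr
      ((Matrix.toLin b0 b0 Y).baseChange K x) i =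
      ∑ i', (Y i i' : K) * (b0.baseChange K).repr x i' := by
    intro x i
    induction x using TensorProduct.induction_on with
    | zero => simp
    | tmul a w =>
      rw [LinearMap.baseChange_tmul, Basis.baseChange_repr_tmul, Matrix.repr_toLin]
      simp only [mulVec, dotProduct, Basis.baseChange_repr_tmul, Finset.sum_smul, Rat.smul_def]
      push_cast
      exact Finset.sum_congr rfl fun i' _ => by ring
    | add x y hx hy =>
      simp only [map_add, Finsupp.add_apply, hx, hy, mul_add, Finset.sum_add_distrib]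
  unfold crd
  rw [h1]
  simp only [mulVec, dotProduct]
  rw [Fintype.sum_prod_type, Finset.sum_eq_single p.1]
  · refine Finset.sum_congr rfl fun i' _ => ?_
    rw [Matrix.map_apply, bd_apply, if_pos rfl]
  · intro j' _ hj
    refine Finset.sum_eq_zero fun i' _ => ?_
    rw [Matrix.map_apply, bd_apply, if_neg (Ne.symm hj), Rat.cast_zero, zero_mul]
  · intro h
    exact absurd (Finset.mem_univ _) h

/-- A rational endomorphism that kills the coefficients of a rational class annihilates the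
corresponding `ℓ`-adic class. -/
theorem annihilates_of_act {N : ℕ} (b0 : Basis (Fin N) ℚ W) (Y : Matrix (Fin N) (Fin N) ℚ)
    {f : (Fin n → W) [⋀^Fin k]→ₗ[ℚ] ℚ} {f' : (Fin n → K ⊗[ℚ] W) [⋀^Fin k]→ₗ[K] K}
    (h : Compares f f') (h0 : act (bd n Y) (coef b0 f) = 0) :
    Annihilates ((Matrix.toLin b0 b0 Y).baseChange K) f' := by
  intro v
  have h1 : ∀ l, f' (Function.update v l fun j => (Matrix.toLin b0 b0 Y).baseChange K (v l j)) =
      evalF (cst K (coef b0 f)) (Function.update (fun l => crd b0 (v l)) l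
        ((bd n Y).map (fun x : ℚ => (x : K)) *ᵥ crd b0 (v l))) := by
    intro l
    rw [compares_eval b0 h]
    congr 1
    funext l'
    by_cases hl : l' = l
    · subst hl
      rw [Function.update_self, Function.update_self, crd_baseChange]
    · rw [Function.update_of_ne hl, Function.update_of_ne hl]
  rw [Finset.sum_congr rfl (fun l _ => h1 l), ← evalF_act (K := K), act_cst, h0, cst_zero,
    evalF_zero]

end ladic

end Pool.Agent.E8helper1.MTA
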