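import Mathlib
import Pool.Agent.E8helper1.MTA.Main

/-!
# The Mumford-Tate conjecture for abelian schemes without indefinite unitary part
-/

set_option autoImplicit false
set_option linter.unusedSectionVars false

namespace Pool.Agent.E8helper1.MTA

open Matrix Module TensorProduct Pool.Agent.H204R3.CM Pool.Agent.H204R3.GP Pool.Agent.W437.HC
  Pool.Agent.W516.MTD Pool.Agent.E8helper1.NU Pool.Agent.E8helper1.NU.Fam

section alg

variable {W : Type} [AddCommGroup W] [Module ℚ W] [FiniteDimensional ℚ W] {n k : ℕ}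

/-- The values of a form with values in a rational vector space are determined by finitely many
rational functionals. -/
theorem exists_mu {M : Type} [AddCommGroup M] [Module ℚ M] (f : (Fin n → W) [⋀^Fin k]→ₗ[ℚ] M) :
    ∃ (q : ℕ) (mu : Fin q → M →ₗ[ℚ] ℚ) (y : Fin q → M), ∀ w, f w = ∑ j, mu j (f w) • y j := by
  classical
  let b0 := Module.finBasis ℚ W
  let S : Submodule ℚ M := Submodule.span ℚ (Set.range (coef b0 f))
  have hS : FiniteDimensional ℚ S := FiniteDimensional.span_of_finite ℚ (Set.finite_range _)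
  have hval : ∀ w, f w ∈ S := by
    intro w
    have h1 : w = fun l => ∑ p : Fin n × Fin (finrank ℚ W), b0.repr (w l p.1) p.2 • bas b0 n p := by
      funext l j
      rw [Finset.sum_apply, Fintype.sum_prod_type, Finset.sum_eq_single j]
      · have : ∀ i, (b0.repr (w l j) i • bas b0 n (j, i)) j = b0.repr (w l j) i • b0 i := by
          intro i
          rw [Pi.smul_apply]
          unfold bas
          rw [Pi.single_eq_same]
        simp only [this]
        exact (b0.sum_repr _).symm
      · intro j' _ hj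
        refine Finset.sum_eq_zero fun i _ => ?_
        rw [Pi.smul_apply]
        unfold bas
        rw [Pi.single_eq_of_ne (Ne.symm hj), smul_zero]
      · intro h
        exact absurd (Finset.mem_univ _) h
    rw [h1]
    have h2 : f (fun l => ∑ p : Fin n × Fin (finrank ℚ W), b0.repr (w l p.1) p.2 • bas b0 n p) =
        f.toMultilinearMap (fun l => ∑ p : Fin n × Fin (finrank ℚ W),
          b0.repr (w l p.1) p.2 • bas b0 n p) := rfl
    rw [h2, MultilinearMap.map_sum]
    refine Submodule.sum_mem _ fun I _ => ?_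
    rw [MultilinearMap.map_smul_univ]
    exact Submodule.smul_mem _ _ (Submodule.subset_span ⟨I, rfl⟩)
  obtain ⟨pr, hpr⟩ := S.subtype.exists_leftInverse_of_injective S.ker_subtype
  have hpr' : ∀ x : M, x ∈ S → ((pr x : S) : M) = x := by
    intro x hx
    have := LinearMap.congr_fun hpr ⟨x, hx⟩
    rw [LinearMap.comp_apply, LinearMap.id_apply] at this
    change pr x = _ at this
    rw [this]
  let y := Module.finBasis ℚ S
  refine ⟨finrank ℚ S, fun j => (y.coord j).comp pr, fun j => (y j : M), fun w => ?_⟩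
  have h1 : pr (f w) = ∑ j, y.repr (pr (f w)) j • y j := (y.sum_repr _).symm
  have h2 := congrArg (fun x : S => (x : M)) h1
  rw [hpr' _ (hval w)] at h2
  refine h2.trans ?_
  simp only [Submodule.coe_sum, Submodule.coe_smul]
  rfl

theorem toLin_bas {N : ℕ} (b0 : Basis (Fin N) ℚ W) (Y : Matrix (Fin N) (Fin N) ℚ)
    (p : Fin n × Fin N) :
    (fun j => Matrix.toLin b0 b0 Y (bas b0 n p j)) = ∑ q, bd n Y q p • bas b0 n q := by
  funext j
  rw [Finset.sum_apply, Fintype.sum_prod_type, Finset.sum_eq_single j]
  · by_cases hj : j = p.1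
    · subst hj
      have h1 : ∀ i, (bd n Y (p.1, i) p • bas b0 n (p.1, i)) p.1 = Y i p.2 • b0 i := by
        intro i
        rw [Pi.smul_apply, bd_apply, if_pos rfl]
        unfold bas
        rw [Pi.single_eq_same]
      simp only [h1]
      unfold bas
      rw [Pi.single_eq_same]
      exact Matrix.toLin_self b0 b0 Y p.2
    · rw [Finset.sum_eq_zero]
      · unfold bas
        rw [Pi.single_eq_of_ne hj, map_zero]
      · intro i _
        rw [Pi.smul_apply, bd_apply, if_neg hj, zero_smul]
  · intro j' _ hj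
    refine Finset.sum_eq_zero fun i _ => ?_
    rw [Pi.smul_apply]
    unfold bas
    rw [Pi.single_eq_of_ne (Ne.symm hj), smul_zero]
  · intro h
    exact absurd (Finset.mem_univ _) h

end alg

section main

variable {K : Type} [Field K] [CharZero K] {B W T P Γ : Type} [AddCommGroup W] [Module ℚ W]
  [FiniteDimensional ℚ W] [AddCommGroup T] [Module ℂ T] [Group P] [Group Γ]

/-- A family of forms with one component. -/
theorem single_mem_inv {per : B → W →+ T} {τ : Representation ℚ P W} {N : ℕ}
    {b0 : Basis (Fin N) ℚ W} {n k : ℕ} {f : (Fin n → W) [⋀^Fin k]→ₗ[ℚ] ℚ} {P' : Subgroup P}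
    (hP' : P'.FiniteIndex) (hf : IsInvariant τ P' f) :
    (Pi.single (n, k) (coef b0 f) : ∀ p : ℕ × ℕ, (Fin p.2 → Fin p.1 × Fin N) → ℚ) ∈
      allF per τ b0 := by
  intro p
  by_cases hp : p = (n, k)
  · subst hp
    refine ⟨f, 0, ⟨P', hP', hf⟩, fun b => isHodge_zero, ?_⟩
    rw [Pi.single_eq_same]
    exact add_zero _
  · refine ⟨0, 0, ⟨⊤, inferInstance, fun _ _ _ => rfl⟩, fun b => isHodge_zero, ?_⟩
    rw [Pi.single_eq_of_ne hp]
    exact add_zero _

theorem single_mem_hodge {per : B → W →+ T} {τ : Representation ℚ P W} {N : ℕ}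
    {b0 : Basis (Fin N) ℚ W} {n k : ℕ} {f : (Fin n → W) [⋀^Fin k]→ₗ[ℚ] ℚ}
    (hf : IsFlatHodge per f) :
    (Pi.single (n, k) (coef b0 f) : ∀ p : ℕ × ℕ, (Fin p.2 → Fin p.1 × Fin N) → ℚ) ∈
      allF per τ b0 := by
  intro p
  by_cases hp : p = (n, k)
  · subst hp
    refine ⟨0, f, ⟨⊤, inferInstance, fun _ _ _ => rfl⟩, hf, ?_⟩
    rw [Pi.single_eq_same]
    exact zero_add _
  · refine ⟨0, 0, ⟨⊤, inferInstance, fun _ _ _ => rfl⟩, fun b => isHodge_zero, ?_⟩
    rw [Pi.single_eq_of_ne hp]
    exact add_zero _

/-- **The Mumford-Tate conjecture** for abelian schemes without indefinite unitary part. -/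
theorem main [Nonempty B] (per : B → W →+ T) (hper : ∀ b, IsRationalStructure (per b))
    (ω₀ : W →ₗ[ℚ] W →ₗ[ℚ] ℚ) (hω : ∀ b, IsRiemannForm (per b) ω₀) (τ : Representation ℚ P W)
    (hfix : FixedPart per τ) (hni : NoIndefiniteUnitaryPart per)
    (ρ : Representation K Γ (K ⊗[ℚ] W)) (χ : Γ →* K)
    (φ : P →* Γ) (hρ : ∀ γ, ρ (φ γ) = (τ γ).baseChange K) (hχ : ∀ γ, χ (φ γ) = 1)
    (hC : TheoremOnCentres per ρ χ) {n m : ℕ}
    (F : (Fin n → K ⊗[ℚ] W) [⋀^Fin (2 * m)]→ₗ[K] K) (hF : IsTate ρ χ F) :
    F ∈ hodgeSpan K per n m := by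
  classical
  obtain ⟨b⟩ := ‹Nonempty B›
  have hne : Nonempty B := ⟨b⟩
  let b0 : Basis (Fin (finrank ℚ W)) ℚ W := Module.finBasis ℚ W
  choose bT hb using fun b => exists_real_basis (hper b) b0
  obtain ⟨κ, c, hJ, hκ, hc⟩ := J_decomp (D := fam per ω₀ b0 bT hb hω hne)
    (r := repAll (finrank ℚ W)) (F := allF per τ b0) (fun X Y => repAll_bracket X Y)
    (fun b lam u hu => allF_stable hfix b lam u hu)
    (fun b b' lam u hu => allF_const hfix b b' lam u hu) (noIndef_of hni) b
  change JM (bT b) = κ + c at hJ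
  -- the elements of the first kind kill the invariant forms and the Hodge classes
  have hκ1 : ∀ (lam : ℝ →ₗ[ℚ] ℚ) {n k : ℕ} {f : (Fin n → W) [⋀^Fin k]→ₗ[ℚ] ℚ},
      (Pi.single (n, k) (coef b0 f) : ∀ p : ℕ × ℕ,
        (Fin p.2 → Fin p.1 × Fin (finrank ℚ W)) → ℚ) ∈ allF per τ b0 →
      act (bd n (κ.map lam)) (coef b0 f) = 0 := by
    intro lam n k f hf
    have h1 := congrFun (hκ lam _ hf) (n, k)
    rw [repAll_apply, Pi.single_eq_same] at h1
    exact h1
  have hsplit : ∀ (lam : ℝ →ₗ[ℚ] ℚ) {n k : ℕ} {f : (Fin n → W) [⋀^Fin k]→ₗ[ℚ] ℚ},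
      (Pi.single (n, k) (coef b0 f) : ∀ p : ℕ × ℕ,
        (Fin p.2 → Fin p.1 × Fin (finrank ℚ W)) → ℚ) ∈ allF per τ b0 →
      act (bd n ((JM (bT b)).map lam)) (coef b0 f) = act (bd n (c.map lam)) (coef b0 f) := by
    intro lam n k f hf
    rw [hJ, lam_add, map_add, act_add_left, hκ1 lam hf, zero_add]
  -- the central elements annihilate the Hodge classes
  have hann : ∀ lam : ℝ →ₗ[ℚ] ℚ,
      Annihilates ((Matrix.toLin b0 b0 (c.map lam)).baseChange K) F := by
    intro lam
    have hE : IsFlatEnd per (Matrix.toLin b0 b0 (c.map lam)) :=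
      (mem_E_iff (hb := hb) (hω := hω) (hne := hne) _).1 (hc lam).1
    refine hC _ (Submodule.subset_span ⟨_, hE, rfl⟩) ?_ ?_ n m F hF
    · intro Y hY
      refine Submodule.span_induction (p := fun Y _ =>
        (Matrix.toLin b0 b0 (c.map lam)).baseChange K * Y =
          Y * (Matrix.toLin b0 b0 (c.map lam)).baseChange K) ?_ ?_ ?_ ?_ hY
      · rintro _ ⟨Q, hQ, rfl⟩
        have h1 : LinearMap.toMatrix b0 b0 Q ∈ (fam per ω₀ b0 bT hb hω hne).E := by
          rw [mem_E_iff, Matrix.toLin_toMatrix]
          exact hQ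
        have h2 := congrArg (Matrix.toLin b0 b0) ((hc lam).2 _ h1)
        rw [Matrix.toLin_mul b0 b0 b0, Matrix.toLin_mul b0 b0 b0, Matrix.toLin_toMatrix] at h2
        rw [Module.End.mul_eq_comp, Module.End.mul_eq_comp, ← LinearMap.baseChange_comp,
          ← LinearMap.baseChange_comp, h2]
      · rw [mul_zero, zero_mul]
      · intro Y Y' _ _ h1 h2
        rw [mul_add, add_mul, h1, h2]
      · intro a Y _ h1
        rw [mul_smul_comm, smul_mul_assoc, h1]
    · intro n' r f f' hf hff
      refine annihilates_of_act b0 _ hff ?_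
      have h1 := single_mem_hodge (τ := τ) (b0 := b0) hf
      rw [← hsplit lam h1]
      exact hodge_key hb lam hf b
  -- rational components
  obtain ⟨Δ, hΔ, hF⟩ := hF
  have hM : ∀ (q : ℚ) (x : K), q • x = (q : K) • x := fun q x => by
    rw [Rat.smul_def, smul_eq_mul]
  have hP' : (Δ.comap φ).FiniteIndex := by
    refine ⟨?_⟩
    have h1 : Δ.relIndex ⊤ ≠ 0 := by
      rw [Subgroup.relIndex_top_right]
      exact hΔ.index_ne_zero
    have h2 := Subgroup.relIndex_comap_ne_zero φ h1
    rwa [Subgroup.comap_top, Subgroup.relIndex_top_right] at h2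
  have hinv : IsInvariant τ (Δ.comap φ) (restr F hM) := by
    intro γ hγ w
    change F (fun l => inc K W n fun j => τ γ (w l j)) = F fun l => inc K W n (w l)
    have h1 := hF (φ γ) hγ (fun l => inc K W n (w l))
    rw [hχ, one_pow, one_smul, Representation.trivial_apply] at h1
    rw [← h1]
    congr 1
    funext l j
    rw [hρ, inc_apply, inc_apply, LinearMap.baseChange_tmul]
  obtain ⟨q, mu, y, hmu⟩ := exists_mu (restr F hM)
  set f : Fin q → (Fin n → W) [⋀^Fin (2 * m)]→ₗ[ℚ] ℚ := fun j =>
    (mu j).compAlternatingMap (restr F hM) with hf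
  have hfinv : ∀ j, IsInvariant τ (Δ.comap φ) (f j) := by
    intro j γ hγ w
    exact congrArg (mu j) (hinv γ hγ w)
  -- the central elements kill the rational components
  have hfc : ∀ (lam : ℝ →ₗ[ℚ] ℚ) (j : Fin q), act (bd n (c.map lam)) (coef b0 (f j)) = 0 := by
    intro lam j
    funext I
    have h1 := hann lam (fun l => inc K W n (bas b0 n (I l)))
    have h2 : ∀ l, F (Function.update (fun l => inc K W n (bas b0 n (I l))) l fun j =>
        (Matrix.toLin b0 b0 (c.map lam)).baseChange K (inc K W n (bas b0 n (I l)) j)) =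
        ∑ p, bd n (c.map lam) p (I l) • restr F hM (fun l' => bas b0 n
          (Function.update I l p l')) := by
      intro l
      have h3 : (fun j => (Matrix.toLin b0 b0 (c.map lam)).baseChange K
          (inc K W n (bas b0 n (I l)) j)) =
          inc K W n (fun j => Matrix.toLin b0 b0 (c.map lam) (bas b0 n (I l) j)) := by
        funext j
        rw [inc_apply, inc_apply, LinearMap.baseChange_tmul]
      have h4 : Function.update (fun l => inc K W n (bas b0 n (I l))) l
          (inc K W n (fun j => Matrix.toLin b0 b0 (c.map lam) (bas b0 n (I l) j))) =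
          fun l' => inc K W n (Function.update (fun l => bas b0 n (I l)) l
            (fun j => Matrix.toLin b0 b0 (c.map lam) (bas b0 n (I l) j)) l') := by
        funext l'
        by_cases hl : l' = l
        · subst hl
          rw [Function.update_self, Function.update_self]
        · rw [Function.update_of_ne hl, Function.update_of_ne hl]
      rw [h3, h4]
      change restr F hM (Function.update (fun l => bas b0 n (I l)) l
            (fun j => Matrix.toLin b0 b0 (c.map lam) (bas b0 n (I l) j))) = _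
      rw [toLin_bas, AlternatingMap.map_update_sum]
      refine Finset.sum_congr rfl fun p _ => ?_
      rw [AlternatingMap.map_update_smul]
      congr 2
      funext l'
      by_cases hl : l' = l
      · subst hl
        rw [Function.update_self, Function.update_self]
      · rw [Function.update_of_ne hl, Function.update_of_ne hl]
    rw [Finset.sum_congr rfl (fun l _ => h2 l)] at h1
    have h3 := congrArg (mu j) h1
    rw [map_zero, map_sum] at h3
    unfold act
    rw [Pi.zero_apply]
    refine Eq.trans ?_ h3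
    refine Finset.sum_congr rfl fun l _ => ?_
    rw [map_sum]
    refine Finset.sum_congr rfl fun p _ => ?_
    rw [map_smul, smul_eq_mul]
    rfl
  have hHodge : ∀ j, IsFlatHodge per (f j) := by
    intro j b'
    obtain ⟨G, hG, hGb⟩ := hfix _ hP' n (2 * m) (f j) (hfinv j)
    refine isHodge_of_kill (hb b') (hGb b') ?_
    funext I
    refine eq_zero_of_lam fun lam => ?_
    rw [lam_act, bd_map]
    obtain ⟨g', _, hg'⟩ := weil_key hb hfix hP' lam (f j) (hfinv j)
    rw [hg' b', ← hg' b, hsplit lam (single_mem_inv hP' (hfinv j)), hfc lam j]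
    rfl
  have hsum : F = ∑ j, y j • extend K (f j) := by
    refine ext_of_rat fun w => ?_
    have h2 : F (fun l => inc K W n (w l)) = restr F hM w := rfl
    rw [h2, hmu w]
    have h3 : ∀ (s : Finset (Fin q)), (∑ j ∈ s, y j • extend K (f j))
        (fun l => inc K W n (w l)) = ∑ j ∈ s, mu j (restr F hM w) • y j := by
      intro s
      induction s using Finset.induction_on with
      | empty => rfl
      | insert j s hj ih =>
        rw [Finset.sum_insert hj, Finset.sum_insert hj, AlternatingMap.add_apply, ih]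
        congr 1
        rw [AlternatingMap.smul_apply]
        have h4 := compares_extend (K := K) (f j) w
        change extend K (f j) (fun l => inc K W n (w l)) = _ at h4
        rw [h4, hM, smul_eq_mul, smul_eq_mul, mul_comm]
        rfl
    exact (h3 _).symm
  rw [hsum]
  exact Submodule.sum_mem _ fun j _ => Submodule.smul_mem _ _ (Submodule.subset_span
    ⟨f j, hHodge j, compares_extend _⟩)

end main

end Pool.Agent.E8helper1.MTA
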